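import Pool.Agent.W795.DD.Stm2
import Pool.Agent.H459R3.NS.Four

/-! # DD-SYN-1: smoothness of sums of Fourier series on `[0, ∞) × ℝ³` -/

set_option autoImplicit false

open MeasureTheory Set Filter Topology
open scoped ContDiff

namespace Pool.Agent.W613.DD.Syn1

open H459R3.NS (V K3 ee ph norm_ee ee_contDiff ee_continuous)
open Pool.Agent.W795.DD

/-! ### summability -/

theorem sq_nonneg' (k : K3) : 0 ≤ W785.DF.sq k := by
  unfold W785.DF.sq
  positivity

theorem sq_le (k : K3) (j : Fin 3) : (k j : ℝ) ^ 2 ≤ W785.DF.sq k := by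
  unfold W785.DF.sq
  exact Finset.single_le_sum (f := fun j => (k j : ℝ) ^ 2) (fun i _ => sq_nonneg _)
    (Finset.mem_univ j)

theorem abs_le (k : K3) (j : Fin 3) : |(k j : ℝ)| ≤ 1 + W785.DF.sq k := by
  have h := sq_le k j
  nlinarith [sq_abs (k j : ℝ), sq_nonneg (|(k j : ℝ)| - 1), abs_nonneg (k j : ℝ)]

/-- coordinates -/
def eqv : K3 ≃ ℤ × ℤ × ℤ where
  toFun k := (k 0, k 1, k 2)
  invFun p := ![p.1, p.2.1, p.2.2]
  left_inv k := by funext i; fin_cases i <;> rfl
  right_inv p := rfl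

theorem summable_int : Summable fun n : ℤ => 1 / (1 + (n : ℝ) ^ 2) := by
  have h : Summable fun n : ℤ => |(n : ℝ)| ^ (-2 : ℝ) := Real.summable_abs_int_rpow (by norm_num)
  have h2 := h.add (summable_of_hasFiniteSupport (f := fun n : ℤ => if n = 0 then (1 : ℝ) else 0)
    ((Set.finite_singleton (0 : ℤ)).subset fun n hn => by
      by_contra h
      exact hn (if_neg h)))
  refine Summable.of_nonneg_of_le (fun n => by positivity) (fun n => ?_) h2
  by_cases hn : n = 0
  · subst hn; simp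
  · rw [if_neg hn, add_zero]
    have hn' : (n : ℝ) ≠ 0 := by exact_mod_cast hn
    rw [Real.rpow_neg (abs_nonneg _), ← one_div, show (2 : ℝ) = ((2 : ℕ) : ℝ) by norm_num,
      Real.rpow_natCast, sq_abs]
    apply one_div_le_one_div_of_le (by positivity)
    linarith

theorem summable_K3 : Summable fun k : K3 =>
    (1 / (1 + (k 0 : ℝ) ^ 2)) * ((1 / (1 + (k 1 : ℝ) ^ 2)) * (1 / (1 + (k 2 : ℝ) ^ 2))) := by
  have h1 := summable_int.mul_of_nonneg summable_int (fun n => by positivity)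
    (fun n => by positivity)
  have h2 := summable_int.mul_of_nonneg h1 (fun n => by positivity)
    (fun p => by positivity)
  have h3 := (eqv.summable_iff (f := fun p : ℤ × ℤ × ℤ =>
    (1 / (1 + (p.1 : ℝ) ^ 2)) * ((1 / (1 + (p.2.1 : ℝ) ^ 2)) * (1 / (1 + (p.2.2 : ℝ) ^ 2))))).2 h2
  exact h3

theorem summable_wt : Summable fun k : K3 => 1 / (1 + W785.DF.sq k) ^ 3 := by
  refine Summable.of_nonneg_of_le (fun k => by have := sq_nonneg' k; positivity) (fun k => ?_)
    summable_K3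
  have h0 := sq_le k 0
  have h1 := sq_le k 1
  have h2 := sq_le k 2
  have hp : (1 + (k 0 : ℝ) ^ 2) * ((1 + (k 1 : ℝ) ^ 2) * (1 + (k 2 : ℝ) ^ 2)) ≤
      (1 + W785.DF.sq k) ^ 3 := by
    calc (1 + (k 0 : ℝ) ^ 2) * ((1 + (k 1 : ℝ) ^ 2) * (1 + (k 2 : ℝ) ^ 2))
        ≤ (1 + W785.DF.sq k) * ((1 + W785.DF.sq k) * (1 + W785.DF.sq k)) := by
          have := sq_nonneg' k
          gcongr
      _ = _ := by ring
  have e : (1 / (1 + (k 0 : ℝ) ^ 2)) * ((1 / (1 + (k 1 : ℝ) ^ 2)) * (1 / (1 + (k 2 : ℝ) ^ 2))) =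
      1 / ((1 + (k 0 : ℝ) ^ 2) * ((1 + (k 1 : ℝ) ^ 2) * (1 + (k 2 : ℝ) ^ 2))) := by
    field_simp
  rw [e]
  exact one_div_le_one_div_of_le (by positivity) hp

theorem summable_C (C : ℝ) : Summable fun k : K3 => C / (1 + W785.DF.sq k) ^ 3 := by
  have := summable_wt.mul_left C
  refine this.congr (fun k => ?_)
  ring

theorem le_div (k : K3) (C r : ℝ) (h : (1 + W785.DF.sq k) ^ 3 * r ≤ C) :
    r ≤ C / (1 + W785.DF.sq k) ^ 3 := by
  have := sq_nonneg' k
  rw [le_div_iff₀ (by positivity), mul_comm]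
  exact h

theorem summable_FS {γ : K3 → ℂ} {C : ℝ} (h : ∀ k, (1 + W785.DF.sq k) ^ 3 * ‖γ k‖ ≤ C) (x : V) :
    Summable fun k => γ k * ee k x := by
  refine Summable.of_norm_bounded (summable_C C) (fun k => ?_)
  rw [norm_mul, norm_ee, mul_one]
  exact le_div k C _ (h k)

/-! ### continuity -/

theorem cont {c : ℝ → K3 → ℂ} (hc : RD c) :
    ContinuousOn (fun z : ℝ × V => FS (c z.1) z.2) (Ici 0 ×ˢ univ) := by
  rintro ⟨t, x⟩ ⟨ht, -⟩
  obtain ⟨C, hC⟩ := hc.2 3 (t + 1)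
  have h1 : ContinuousOn (fun z : ℝ × V => FS (c z.1) z.2) (Icc 0 (t + 1) ×ˢ univ) := by
    unfold FS
    refine continuousOn_tsum (u := fun k => C / (1 + W785.DF.sq k) ^ 3) (fun k => ?_)
      (summable_C C) (fun k z hz => ?_)
    · refine ContinuousOn.mul ?_ ((ee_continuous k).comp continuous_snd).continuousOn
      exact (hc.1 k).comp continuousOn_fst (fun z hz => hz.1.1)
    · rw [norm_mul, norm_ee, mul_one]
      exact le_div k C _ (hC z.1 hz.1 k)
  have ht' : (0 : ℝ) ≤ t := ht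
  refine (h1 (t, x) ⟨⟨ht', by simp⟩, mem_univ _⟩).mono_of_mem_nhdsWithin ?_
  rw [mem_nhdsWithin]
  refine ⟨Iio (t + 1) ×ˢ univ, isOpen_Iio.prod isOpen_univ, ⟨by simp, mem_univ _⟩, ?_⟩
  rintro ⟨s, y⟩ ⟨⟨h2, -⟩, h3, -⟩
  exact ⟨⟨h3, le_of_lt h2⟩, mem_univ _⟩

/-! ### the derivative -/

/-- the coordinates -/
noncomputable def L0 : ℝ × V →L[ℝ] ℝ := ContinuousLinearMap.fst ℝ ℝ V

/-- the coordinates -/
noncomputable def Lj (j : Fin 3) : ℝ × V →L[ℝ] ℝ :=
  (ContinuousLinearMap.proj j : (Fin 3 → ℝ) →L[ℝ] ℝ).comp (ContinuousLinearMap.snd ℝ ℝ V)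

theorem norm_L0 : ‖L0‖ ≤ 1 :=
  ContinuousLinearMap.opNorm_le_bound _ zero_le_one (fun v => by
    rw [one_mul]
    exact norm_fst_le v)

theorem norm_Lj (j : Fin 3) : ‖Lj j‖ ≤ 1 :=
  ContinuousLinearMap.opNorm_le_bound _ zero_le_one (fun v => by
    rw [one_mul]
    exact (norm_le_pi_norm v.2 j).trans (norm_snd_le v))

theorem hasFDerivAt_ee (k : K3) (x : V) : HasFDerivAt (ee k)
    (∑ j, (ContinuousLinearMap.proj j : (Fin 3 → ℝ) →L[ℝ] ℝ).smulRight
      (2 * Real.pi * Complex.I * (k j : ℂ) * ee k x)) x := by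
  have h0 : HasFDerivAt (ph k) (∑ j, (k j : ℝ) • (ContinuousLinearMap.proj j :
      (Fin 3 → ℝ) →L[ℝ] ℝ)) x := by
    unfold ph
    refine HasFDerivAt.fun_sum (fun j _ => ?_)
    exact ((ContinuousLinearMap.proj j : (Fin 3 → ℝ) →L[ℝ] ℝ).hasFDerivAt).const_mul (k j : ℝ)
  have h1 := Complex.ofRealCLM.hasFDerivAt.comp x h0
  have h2 := (h1.const_mul (2 * Real.pi * Complex.I)).cexp
  refine h2.congr_fderiv ?_
  ext v
  simp only [_root_.smul_apply, ContinuousLinearMap.comp_apply,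
    _root_.sum_apply, ContinuousLinearMap.smulRight_apply,
    ContinuousLinearMap.proj_apply, Complex.ofRealCLM_apply, smul_eq_mul, Complex.ofReal_sum,
    Complex.ofReal_mul, Complex.real_smul, Function.comp_apply]
  rw [Finset.mul_sum, Finset.mul_sum]
  refine Finset.sum_congr rfl (fun j _ => ?_)
  unfold ee
  push_cast
  ring

/-- the derivative of the coefficient, extended to negative times -/
theorem hasDerivAt_ext {f f' : ℝ → ℂ}
    (h : ∀ t, 0 ≤ t → HasDerivWithinAt f (f' t) (Ici 0) t) (t : ℝ) :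
    HasDerivAt (fun s => f (max s 0) + ((min s 0 : ℝ) : ℂ) * f' 0) (f' (max t 0)) t := by
  rcases lt_trichotomy t 0 with ht | ht | ht
  · have h1 : HasDerivAt (fun s : ℝ => f 0 + ((s : ℝ) : ℂ) * f' 0) (f' 0) t := by
      have h2 : HasDerivAt (fun s : ℝ => ((s : ℝ) : ℂ)) 1 t := Complex.ofRealCLM.hasDerivAt
      have h3 := (h2.mul_const (f' 0)).const_add (f 0)
      rwa [one_mul] at h3
    rw [max_eq_right ht.le]
    refine h1.congr_of_eventuallyEq ?_
    filter_upwards [Iio_mem_nhds ht] with s hs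
    rw [max_eq_right (le_of_lt hs), min_eq_left (le_of_lt hs)]
  · subst ht
    rw [max_self]
    have hl : HasDerivWithinAt (fun s => f (max s 0) + ((min s 0 : ℝ) : ℂ) * f' 0) (f' 0)
        (Iic 0) 0 := by
      have h1 : HasDerivAt (fun s : ℝ => f 0 + ((s : ℝ) : ℂ) * f' 0) (f' 0) 0 := by
        have h2 : HasDerivAt (fun s : ℝ => ((s : ℝ) : ℂ)) 1 0 := Complex.ofRealCLM.hasDerivAt
        have h3 := (h2.mul_const (f' 0)).const_add (f 0)
        rwa [one_mul] at h3
      refine h1.hasDerivWithinAt.congr (fun s hs => ?_) ?_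
      · rw [max_eq_right hs, min_eq_left hs]
      · rw [max_self, min_self]
    have hr : HasDerivWithinAt (fun s => f (max s 0) + ((min s 0 : ℝ) : ℂ) * f' 0) (f' 0)
        (Ici 0) 0 := by
      refine (h 0 le_rfl).congr (fun s hs => ?_) ?_
      · rw [max_eq_left hs, min_eq_right hs, Complex.ofReal_zero, zero_mul, add_zero]
      · rw [max_self, min_self, Complex.ofReal_zero, zero_mul, add_zero]
    have := hl.union hr
    rw [Iic_union_Ici] at this
    exact this.hasDerivAt univ_mem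
  · rw [max_eq_left ht.le]
    have h1 := (h t ht.le).hasDerivAt (Ici_mem_nhds ht)
    refine h1.congr_of_eventuallyEq ?_
    filter_upwards [Ioi_mem_nhds ht] with s hs
    have hs' : (0 : ℝ) ≤ s := le_of_lt hs
    rw [max_eq_left hs', min_eq_right hs', Complex.ofReal_zero, zero_mul, add_zero]

theorem fd {c c' : ℝ → K3 → ℂ} (hc : RD c) (hc' : RD c')
    (hd : ∀ t, 0 ≤ t → ∀ k, HasDerivWithinAt (fun s => c s k) (c' t k) (Ici 0) t)
    (t : ℝ) (ht : 0 ≤ t) (x : V) :
    HasFDerivWithinAt (fun z : ℝ × V => FS (c z.1) z.2)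
      (L0.smulRight (FS (c' t) x) +
        ∑ j, (Lj j).smulRight (FS (fun k => 2 * Real.pi * Complex.I * (k j : ℂ) * c t k) x))
      (Ici 0 ×ˢ univ) (t, x) := by
  obtain ⟨C1, hC1⟩ := hc.2 4 (t + 1)
  obtain ⟨C2, hC2⟩ := hc'.2 4 (t + 1)
  have h0T : (0 : ℝ) ∈ Icc 0 (t + 1) := ⟨le_rfl, by linarith⟩
  have hC1n : 0 ≤ C1 := le_trans (by have := sq_nonneg' (0 : K3); positivity) (hC1 0 h0T 0)
  have hC2n : 0 ≤ C2 := le_trans (by have := sq_nonneg' (0 : K3); positivity) (hC2 0 h0T 0)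
  let Ck : K3 → ℝ → ℂ := fun k s => c (max s 0) k + ((min s 0 : ℝ) : ℂ) * c' 0 k
  let Ck' : K3 → ℝ → ℂ := fun k s => c' (max s 0) k
  let g : K3 → ℝ × V → ℂ := fun k z => Ck k z.1 * ee k z.2
  let g' : K3 → ℝ × V → (ℝ × V →L[ℝ] ℂ) := fun k z =>
    L0.smulRight (Ck' k z.1 * ee k z.2) +
      ∑ j, (Lj j).smulRight (2 * Real.pi * Complex.I * (k j : ℂ) * Ck k z.1 * ee k z.2)
  let u : K3 → ℝ := fun k => (C2 + 6 * Real.pi * (C1 + C2)) / (1 + W785.DF.sq k) ^ 3
  have hmax : ∀ s ∈ Ioo (-1 : ℝ) (t + 1), max s 0 ∈ Icc 0 (t + 1) := fun s hs =>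
    ⟨le_max_right _ _, max_le hs.2.le (by linarith)⟩
  have hCk : ∀ k, ∀ s ∈ Ioo (-1 : ℝ) (t + 1), (1 + W785.DF.sq k) ^ 4 * ‖Ck k s‖ ≤ C1 + C2 := by
    intro k s hs
    have hw := sq_nonneg' k
    have h1 := hC1 (max s 0) (hmax s hs) k
    have h2 := hC2 0 h0T k
    have h3 : ‖((min s 0 : ℝ) : ℂ)‖ ≤ 1 := by
      rw [Complex.norm_real, Real.norm_eq_abs, _root_.abs_le]
      constructor
      · exact le_min hs.1.le (by norm_num)
      · exact (min_le_right _ _).trans zero_le_one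
    have h4 : ‖Ck k s‖ ≤ ‖c (max s 0) k‖ + ‖c' 0 k‖ := by
      refine (norm_add_le _ _).trans ?_
      rw [norm_mul]
      have := mul_le_mul_of_nonneg_right h3 (norm_nonneg (c' 0 k))
      linarith
    calc (1 + W785.DF.sq k) ^ 4 * ‖Ck k s‖
        ≤ (1 + W785.DF.sq k) ^ 4 * (‖c (max s 0) k‖ + ‖c' 0 k‖) :=
          mul_le_mul_of_nonneg_left h4 (by positivity)
      _ ≤ C1 + C2 := by rw [mul_add]; linarith
  have hg : ∀ k z, z ∈ Ioo (-1 : ℝ) (t + 1) ×ˢ (univ : Set V) →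
      HasFDerivAt (g k) (g' k z) z := by
    rintro k ⟨s, y⟩ -
    have h1 : HasFDerivAt (fun z : ℝ × V => Ck k z.1)
        (L0.smulRight (Ck' k s)) (s, y) := by
      have h2 : HasDerivAt (Ck k) (Ck' k s) s :=
        hasDerivAt_ext (f := fun s => c s k) (f' := fun s => c' s k) (fun t ht => hd t ht k) s
      have h3 := h2.hasFDerivAt.comp (s, y) (hasFDerivAt_fst (𝕜 := ℝ) (p := (s, y)))
      refine h3.congr_fderiv ?_
      ext v <;> simp [L0]
    have h2 : HasFDerivAt (fun z : ℝ × V => ee k z.2)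
        (∑ j, (Lj j).smulRight (2 * Real.pi * Complex.I * (k j : ℂ) * ee k y)) (s, y) := by
      have h3 := (hasFDerivAt_ee k y).comp (s, y) (hasFDerivAt_snd (𝕜 := ℝ) (p := (s, y)))
      refine h3.congr_fderiv ?_
      ext v <;> simp [Lj]
    have h3 := h1.mul h2
    refine h3.congr_fderiv ?_
    refine ContinuousLinearMap.ext (fun v => ?_)
    simp only [g', _root_.add_apply, _root_.smul_apply,
      _root_.sum_apply, ContinuousLinearMap.smulRight_apply, smul_eq_mul,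
      Complex.real_smul, Finset.mul_sum]
    rw [add_comm]
    congr 1
    · ring
    · refine Finset.sum_congr rfl (fun j _ => ?_)
      ring
  have hg'b : ∀ k z, z ∈ Ioo (-1 : ℝ) (t + 1) ×ˢ (univ : Set V) → ‖g' k z‖ ≤ u k := by
    rintro k ⟨s, y⟩ ⟨hs, -⟩
    have hw := sq_nonneg' k
    apply le_div
    have h1 : ‖g' k (s, y)‖ ≤ ‖Ck' k s‖ + ∑ j : Fin 3, 2 * Real.pi * |(k j : ℝ)| * ‖Ck k s‖ := by
      refine (norm_add_le _ _).trans (add_le_add ?_ ((norm_sum_le _ _).trans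
        (Finset.sum_le_sum (fun j _ => ?_))))
      · rw [ContinuousLinearMap.norm_smulRight_apply, norm_mul, norm_ee, mul_one]
        have := mul_le_mul_of_nonneg_right norm_L0 (norm_nonneg (Ck' k s))
        rwa [one_mul] at this
      · rw [ContinuousLinearMap.norm_smulRight_apply, norm_mul, norm_ee, mul_one, norm_mul,
          norm_mul, norm_mul, norm_mul, Complex.norm_I, mul_one, Complex.norm_real,
          Real.norm_eq_abs, abs_of_pos Real.pi_pos, Complex.norm_ofNat, Complex.norm_intCast]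
        have := mul_le_mul_of_nonneg_right (norm_Lj j)
          (show 0 ≤ 2 * Real.pi * |(k j : ℝ)| * ‖Ck k s‖ by positivity)
        rwa [one_mul] at this
    have h2 : ∑ j : Fin 3, 2 * Real.pi * |(k j : ℝ)| * ‖Ck k s‖ ≤
        6 * Real.pi * (1 + W785.DF.sq k) * ‖Ck k s‖ := by
      calc ∑ j : Fin 3, 2 * Real.pi * |(k j : ℝ)| * ‖Ck k s‖
          ≤ ∑ _j : Fin 3, 2 * Real.pi * (1 + W785.DF.sq k) * ‖Ck k s‖ := by
            refine Finset.sum_le_sum (fun j _ => ?_)
            refine mul_le_mul_of_nonneg_right ?_ (norm_nonneg _)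
            exact mul_le_mul_of_nonneg_left (Syn1.abs_le k j) (by positivity)
        _ = 6 * Real.pi * (1 + W785.DF.sq k) * ‖Ck k s‖ := by
            rw [Finset.sum_const, Finset.card_univ, Fintype.card_fin, nsmul_eq_mul]
            push_cast
            ring
    have h3 : (1 + W785.DF.sq k) ^ 3 * ‖Ck' k s‖ ≤ C2 := by
      have h5 := hC2 (max s 0) (hmax s hs) k
      refine le_trans ?_ h5
      refine mul_le_mul_of_nonneg_right ?_ (norm_nonneg _)
      exact pow_le_pow_right₀ (by linarith) (by norm_num)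
    have h4 := hCk k s hs
    calc (1 + W785.DF.sq k) ^ 3 * ‖g' k (s, y)‖
        ≤ (1 + W785.DF.sq k) ^ 3 * (‖Ck' k s‖ +
          6 * Real.pi * (1 + W785.DF.sq k) * ‖Ck k s‖) :=
          mul_le_mul_of_nonneg_left (h1.trans (add_le_add le_rfl h2)) (by positivity)
      _ = (1 + W785.DF.sq k) ^ 3 * ‖Ck' k s‖ +
          6 * Real.pi * ((1 + W785.DF.sq k) ^ 4 * ‖Ck k s‖) := by ring
      _ ≤ C2 + 6 * Real.pi * (C1 + C2) :=
          add_le_add h3 (mul_le_mul_of_nonneg_left h4 (by positivity))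
  have hb1 : ∀ k, (1 + W785.DF.sq k) ^ 3 * ‖c t k‖ ≤ C1 := by
    intro k
    have hw := sq_nonneg' k
    refine le_trans ?_ (hC1 t ⟨ht, by linarith⟩ k)
    refine mul_le_mul_of_nonneg_right ?_ (norm_nonneg _)
    exact pow_le_pow_right₀ (by linarith) (by norm_num)
  have hb2 : ∀ k, (1 + W785.DF.sq k) ^ 3 * ‖c' t k‖ ≤ C2 := by
    intro k
    have hw := sq_nonneg' k
    refine le_trans ?_ (hC2 t ⟨ht, by linarith⟩ k)
    refine mul_le_mul_of_nonneg_right ?_ (norm_nonneg _)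
    exact pow_le_pow_right₀ (by linarith) (by norm_num)
  have hb3 : ∀ (j : Fin 3) (k : K3), (1 + W785.DF.sq k) ^ 3 *
      ‖2 * Real.pi * Complex.I * (k j : ℂ) * c t k‖ ≤ 2 * Real.pi * C1 := by
    intro j k
    have hw := sq_nonneg' k
    rw [norm_mul, norm_mul, norm_mul, norm_mul, Complex.norm_I, mul_one, Complex.norm_real,
      Real.norm_eq_abs, abs_of_pos Real.pi_pos, Complex.norm_ofNat, Complex.norm_intCast]
    have h1 := hC1 t ⟨ht, by linarith⟩ k
    have h2 := Syn1.abs_le k j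
    calc (1 + W785.DF.sq k) ^ 3 * (2 * Real.pi * |(k j : ℝ)| * ‖c t k‖)
        ≤ (1 + W785.DF.sq k) ^ 3 * (2 * Real.pi * (1 + W785.DF.sq k) * ‖c t k‖) := by
          refine mul_le_mul_of_nonneg_left ?_ (by positivity)
          refine mul_le_mul_of_nonneg_right ?_ (norm_nonneg _)
          exact mul_le_mul_of_nonneg_left h2 (by positivity)
      _ = 2 * Real.pi * ((1 + W785.DF.sq k) ^ 4 * ‖c t k‖) := by ring
      _ ≤ 2 * Real.pi * C1 := mul_le_mul_of_nonneg_left h1 (by positivity)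
  have hgz : ∀ z : ℝ × V, 0 ≤ z.1 → ∀ k, g k z = c z.1 k * ee k z.2 := by
    intro z hz k
    simp only [g, Ck]
    rw [max_eq_left hz, min_eq_right hz, Complex.ofReal_zero, zero_mul, add_zero]
  have hmem : (t, x) ∈ Ioo (-1 : ℝ) (t + 1) ×ˢ (univ : Set V) :=
    ⟨⟨by linarith, by simp⟩, mem_univ _⟩
  have main := hasFDerivAt_tsum_of_isPreconnected (u := u) (summable_C _)
    (isOpen_Ioo.prod isOpen_univ)
    (((convex_Ioo (-1 : ℝ) (t + 1)).prod convex_univ).isPreconnected) hg hg'b hmem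
    (by
      have h1 := summable_FS hb1 x
      refine h1.congr (fun k => ?_)
      exact (hgz (t, x) ht k).symm) hmem
  have hsum : ∑' k, g' k (t, x) = L0.smulRight (FS (c' t) x) +
        ∑ j, (Lj j).smulRight (FS (fun k => 2 * Real.pi * Complex.I * (k j : ℂ) * c t k) x) := by
    apply HasSum.tsum_eq
    have h1 : HasSum (fun k => L0.smulRight (c' t k * ee k x)) (L0.smulRight (FS (c' t) x)) :=
      (ContinuousLinearMap.smulRightL ℝ (ℝ × V) ℂ L0).hasSum (summable_FS hb2 x).hasSum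
    have h2 : ∀ j : Fin 3, HasSum
        (fun k : K3 => (Lj j).smulRight (2 * Real.pi * Complex.I * (k j : ℂ) * c t k * ee k x))
        ((Lj j).smulRight (FS (fun k => 2 * Real.pi * Complex.I * (k j : ℂ) * c t k) x)) :=
      fun j => (ContinuousLinearMap.smulRightL ℝ (ℝ × V) ℂ (Lj j)).hasSum
        (summable_FS (hb3 j) x).hasSum
    have h3 := h1.add (hasSum_sum (s := Finset.univ) fun j _ => h2 j)
    have e1 : ∀ k, Ck' k t = c' t k := fun k => by
      simp only [Ck']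
      rw [max_eq_left ht]
    have e2 : ∀ k, Ck k t = c t k := fun k => by
      simp only [Ck]
      rw [max_eq_left ht, min_eq_right ht, Complex.ofReal_zero, zero_mul, add_zero]
    have e : (fun k => g' k (t, x)) = fun k => L0.smulRight (c' t k * ee k x) +
        ∑ j, (Lj j).smulRight (2 * Real.pi * Complex.I * (k j : ℂ) * c t k * ee k x) := by
      funext k
      simp only [g', e1, e2]
    rw [e]
    exact h3
  rw [hsum] at main
  refine main.hasFDerivWithinAt.congr (fun z hz => ?_) ?_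
  · exact tsum_congr fun k => (hgz z hz.1 k).symm
  · exact tsum_congr fun k => (hgz (t, x) ht k).symm

theorem TC_rd : ∀ (n : ℕ) (c : ℝ → K3 → ℂ), TC n c → RD c
  | 0, _, h => h
  | _ + 1, _, h => h.1

theorem cd (htc : S_tc) : ∀ (n : ℕ) (c : ℝ → K3 → ℂ), TC n c →
    ContDiffOn ℝ n (fun z : ℝ × V => FS (c z.1) z.2) (Ici 0 ×ˢ univ) := by
  intro n
  induction n with
  | zero =>
    intro c hc
    exact contDiffOn_zero.mpr (cont hc)
  | succ n ih =>
    intro c hc
    have hcn : TC n c := htc.2.2.2 n c hc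
    obtain ⟨h1, c', h2, h3⟩ := hc
    have hu : UniqueDiffOn ℝ ((Ici 0 : Set ℝ) ×ˢ (univ : Set V)) :=
      (uniqueDiffOn_Ici 0).prod uniqueDiffOn_univ
    have e : ((n + 1 : ℕ) : WithTop ℕ∞) = (n : WithTop ℕ∞) + 1 := by push_cast; rfl
    rw [e, contDiffOn_succ_iff_hasFDerivWithinAt_of_uniqueDiffOn hu]
    refine ⟨fun h => absurd h (by simp), fun z => L0.smulRight (FS (c' z.1) z.2) +
        ∑ j, (Lj j).smulRight (FS (fun k => 2 * Real.pi * Complex.I * (k j : ℂ) * c z.1 k) z.2),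
      ?_, ?_⟩
    · refine ContDiffOn.add ?_ (ContDiffOn.sum fun j _ => ?_)
      · exact (ContinuousLinearMap.smulRightL ℝ (ℝ × V) ℂ L0).contDiff.comp_contDiffOn (ih c' h2)
      · refine (ContinuousLinearMap.smulRightL ℝ (ℝ × V) ℂ (Lj j)).contDiff.comp_contDiffOn ?_
        refine ih (fun t k => 2 * Real.pi * Complex.I * (k j : ℂ) * c t k) ?_
        refine htc.2.1 n c (fun k => 2 * Real.pi * Complex.I * (k j : ℂ)) (2 * Real.pi) 1 ?_ hcn
        intro k
        rw [norm_mul, norm_mul, norm_mul, Complex.norm_I, mul_one, Complex.norm_real,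
          Real.norm_eq_abs, abs_of_pos Real.pi_pos, Complex.norm_ofNat, Complex.norm_intCast,
          pow_one]
        exact mul_le_mul_of_nonneg_left (Syn1.abs_le k j) (by positivity)
    · rintro ⟨t, x⟩ ⟨ht, -⟩
      exact fd h1 (TC_rd n c' h2) h3 t ht x

theorem proof (htc : S_tc) : S_syn1 := by
  intro c hc
  rw [contDiffOn_infty]
  intro n
  exact cd htc n c (hc n)

end Pool.Agent.W613.DD.Syn1
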